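import Mathlib

/-!
# Capped coupling lemma

A finite probability space, a set of available indices for every point, and a cap `κ` for the
conditional probabilities: a Hall type condition gives a kernel with uniform second marginal.
-/

set_option autoImplicit false

open Finset BigOperators

namespace Pool.Agent.Helper721_F

lemma abel_aux (D : ℕ → ℝ) (hD : ∀ j, 0 ≤ D j) (D0 : D 0 = 0) :
    ∀ (n : ℕ) (F : Fin (n + 1) → ℝ), Monotone F →
      ∑ j : Fin (n + 1), (D (j + 1) - D j) * F j ≤ D (n + 1) * F (Fin.last n) := by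
  intro n
  induction n with
  | zero =>
    intro F _
    simp [D0]
  | succ n ih =>
    intro F hF
    rw [Fin.sum_univ_castSucc]
    have h1 := ih (fun j => F j.castSucc) (fun a b hab => hF (by simpa using hab))
    have h2 : F (Fin.last n).castSucc ≤ F (Fin.last (n + 1)) := hF (Fin.le_last _)
    have h3 : D (n + 1) * F (Fin.last n).castSucc ≤ D (n + 1) * F (Fin.last (n + 1)) :=
      mul_le_mul_of_nonneg_left h2 (hD _)
    have h4 : ∑ j : Fin (n + 1), (D ((j.castSucc : Fin (n + 1 + 1)) + 1) - D (j.castSucc : Fin (n + 1 + 1))) *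
        F j.castSucc ≤ D (n + 1) * F (Fin.last n).castSucc := by
      simpa using h1
    have h5 : (D ((Fin.last (n + 1) : Fin (n + 1 + 1)) + 1) - D (Fin.last (n + 1) : Fin (n + 1 + 1))) *
        F (Fin.last (n + 1)) = D (n + 1 + 1) * F (Fin.last (n + 1)) -
          D (n + 1) * F (Fin.last (n + 1)) := by
      simp only [Fin.val_last]
      ring
    linarith

lemma abel (k : ℕ) (D : ℕ → ℝ) (hD : ∀ j, 0 ≤ D j) (D0 : D 0 = 0) (Dk : D k = 0)
    (F : Fin k → ℝ) (hF : Monotone F) :
    ∑ j : Fin k, (D (j + 1) - D j) * F j ≤ 0 := by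
  cases k with
  | zero => simp
  | succ n =>
    have := abel_aux D hD D0 n F hF
    rw [Dk, zero_mul] at this
    exact this

variable {Ω : Type} [Fintype Ω]

/-- **Capped coupling lemma.** -/
theorem coupling (P : Ω → ℝ) (hP : ∀ ω, 0 ≤ P ω) (hP1 : ∑ ω, P ω = 1) (k : ℕ) (hk : 0 < k)
    (A : Ω → Finset (Fin k)) (κ : ℝ) (hκ : 0 ≤ κ) (hA : ∀ ω, 1 ≤ κ * (A ω).card)
    (hall : ∀ T : Finset (Fin k), (T.card : ℝ) / k ≤
      ∑ ω, P ω * min 1 (κ * ((A ω ∩ T).card : ℝ))) :
    ∃ q : Ω → Fin k → ℝ, (∀ ω i, 0 ≤ q ω i) ∧ (∀ ω i, q ω i ≤ κ) ∧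
      (∀ ω i, i ∉ A ω → q ω i = 0) ∧ (∀ ω, ∑ i, q ω i = 1) ∧
      ∀ i, ∑ ω, P ω * q ω i = 1 / k := by
  classical
  by_contra hcon
  set K : Set (Ω → Fin k → ℝ) := {q | (∀ ω i, 0 ≤ q ω i) ∧ (∀ ω i, q ω i ≤ κ) ∧
      (∀ ω i, i ∉ A ω → q ω i = 0) ∧ ∀ ω, ∑ i, q ω i = 1} with hK
  set Φ : (Ω → Fin k → ℝ) →ₗ[ℝ] (Fin k → ℝ) :=
    { toFun := fun q i => ∑ ω, P ω * q ω i
      map_add' := by
        intro a b
        ext i
        simp [mul_add, Finset.sum_add_distrib]
      map_smul' := by
        intro a b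
        ext i
        simp only [Pi.smul_apply, smul_eq_mul, RingHom.id_apply, Finset.mul_sum]
        refine Finset.sum_congr rfl fun ω _ => by ring } with hΦ
  have hΦa : ∀ q i, Φ q i = ∑ ω, P ω * q ω i := fun q i => rfl
  have hΦc : Continuous Φ := by
    refine continuous_pi fun i => ?_
    show Continuous fun q : Ω → Fin k → ℝ => ∑ ω, P ω * q ω i
    fun_prop
  have hKconv : Convex ℝ K := by
    intro a ha b hb s t hs ht hst
    refine ⟨fun ω i => ?_, fun ω i => ?_, fun ω i hi => ?_, fun ω => ?_⟩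
    · have := ha.1 ω i; have := hb.1 ω i
      simp only [Pi.add_apply, Pi.smul_apply, smul_eq_mul]
      positivity
    · have h1 := ha.2.1 ω i; have h2 := hb.2.1 ω i
      simp only [Pi.add_apply, Pi.smul_apply, smul_eq_mul]
      calc s * a ω i + t * b ω i ≤ s * κ + t * κ := by gcongr
        _ = κ := by rw [← add_mul, hst, one_mul]
    · have h1 := ha.2.2.1 ω i hi; have h2 := hb.2.2.1 ω i hi
      simp [h1, h2]
    · have h1 := ha.2.2.2 ω; have h2 := hb.2.2.2 ω
      simp only [Pi.add_apply, Pi.smul_apply, smul_eq_mul, Finset.sum_add_distrib,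
        ← Finset.mul_sum, h1, h2, mul_one, hst]
  have hKclosed : IsClosed K := by
    have e : K = (⋂ ω, ⋂ i, {q : Ω → Fin k → ℝ | 0 ≤ q ω i}) ∩
        ((⋂ ω, ⋂ i, {q : Ω → Fin k → ℝ | q ω i ≤ κ}) ∩
        ((⋂ ω, ⋂ i, ⋂ (_ : i ∉ A ω), {q : Ω → Fin k → ℝ | q ω i = 0}) ∩
        (⋂ ω, {q : Ω → Fin k → ℝ | ∑ i, q ω i = 1}))) := by
      ext q
      simp [hK]
    rw [e]
    refine IsClosed.inter ?_ (IsClosed.inter ?_ (IsClosed.inter ?_ ?_))
    · refine isClosed_iInter fun ω => isClosed_iInter fun i => ?_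
      exact isClosed_le continuous_const (by fun_prop)
    · refine isClosed_iInter fun ω => isClosed_iInter fun i => ?_
      exact isClosed_le (by fun_prop) continuous_const
    · refine isClosed_iInter fun ω => isClosed_iInter fun i => isClosed_iInter fun _ => ?_
      exact isClosed_eq (by fun_prop) continuous_const
    · refine isClosed_iInter fun ω => ?_
      exact isClosed_eq (by fun_prop) continuous_const
  have hKcomp : IsCompact K := by
    refine IsCompact.of_isClosed_subset (isCompact_Icc (a := (0 : Ω → Fin k → ℝ))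
      (b := fun _ _ => κ)) hKclosed ?_
    intro q hq
    exact ⟨fun ω i => hq.1 ω i, fun ω i => hq.2.1 ω i⟩
  have himg_conv : Convex ℝ (Φ '' K) := hKconv.linear_image Φ
  have himg_closed : IsClosed (Φ '' K) := (hKcomp.image hΦc).isClosed
  have hu : (fun _ : Fin k => (1 : ℝ) / k) ∉ Φ '' K := by
    rintro ⟨q, hq, hq2⟩
    exact hcon ⟨q, hq.1, hq.2.1, hq.2.2.1, hq.2.2.2, fun i => by
      rw [← hΦa, hq2]⟩
  obtain ⟨f, s, hf1, hf2⟩ := geometric_hahn_banach_point_closed himg_conv himg_closed hu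
  set β : Fin k → ℝ := fun i => f (Pi.single i 1) with hβ
  have hf : ∀ y : Fin k → ℝ, f y = ∑ i, y i * β i := by
    intro y
    conv_lhs => rw [← Finset.univ_sum_single y]
    rw [map_sum]
    refine Finset.sum_congr rfl fun i _ => ?_
    have : (Pi.single i (y i) : Fin k → ℝ) = y i • (Pi.single i (1 : ℝ) : Fin k → ℝ) := by
      rw [← Pi.single_smul]; simp
    rw [this, map_smul, smul_eq_mul]
  obtain ⟨σ, hσ⟩ : ∃ σ : Equiv.Perm (Fin k), Monotone (β ∘ σ) := ⟨Tuple.sort β, Tuple.monotone_sort β⟩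
  set Ts : ℕ → Finset (Fin k) := fun j => univ.filter fun i => ((σ.symm i : Fin k) : ℕ) < j with hTs
  set h : Ω → ℕ → ℝ := fun ω j => min 1 (κ * ((A ω ∩ Ts j).card : ℝ)) with hh
  have hTs0 : Ts 0 = ∅ := by simp [hTs]
  have hTsk : Ts k = univ := by
    ext i; simp [hTs]
  have hTsS : ∀ i : Fin k, Ts ((σ.symm i : Fin k) + 1) = insert i (Ts (σ.symm i : Fin k)) := by
    intro i
    ext i'
    simp only [hTs, mem_filter, mem_univ, true_and, mem_insert]
    constructor
    · intro hlt
      rcases Nat.lt_succ_iff_lt_or_eq.mp hlt with h1 | h1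
      · exact Or.inr h1
      · left
        exact σ.symm.injective (Fin.ext h1)
    · rintro (rfl | h1)
      · exact Nat.lt_succ_self _
      · exact Nat.lt_succ_of_lt h1
  have hTsn : ∀ i : Fin k, i ∉ Ts (σ.symm i : Fin k) := by
    intro i; simp [hTs]
  set q : Ω → Fin k → ℝ := fun ω i => h ω ((σ.symm i : Fin k) + 1) - h ω (σ.symm i : Fin k) with hq
  have hcardA : ∀ ω i, i ∈ A ω → (A ω ∩ Ts ((σ.symm i : Fin k) + 1)).card =
      (A ω ∩ Ts (σ.symm i : Fin k)).card + 1 := by
    intro ω i hi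
    rw [hTsS i, Finset.inter_insert_of_mem hi, Finset.card_insert_of_notMem]
    intro hmem
    exact hTsn i (Finset.mem_inter.mp hmem).2
  have hcardN : ∀ ω i, i ∉ A ω → (A ω ∩ Ts ((σ.symm i : Fin k) + 1)) =
      (A ω ∩ Ts (σ.symm i : Fin k)) := by
    intro ω i hi
    rw [hTsS i, Finset.inter_insert_of_notMem hi]
  have hqK : q ∈ K := by
    refine ⟨fun ω i => ?_, fun ω i => ?_, fun ω i hi => ?_, fun ω => ?_⟩
    · by_cases hi : i ∈ A ω
      · simp only [hq, hh, hcardA ω i hi]
        have : κ * ((A ω ∩ Ts (σ.symm i : Fin k)).card : ℝ) ≤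
            κ * (((A ω ∩ Ts (σ.symm i : Fin k)).card + 1 : ℕ) : ℝ) := by
          gcongr; simp
        have := min_le_min_left (1 : ℝ) this
        linarith
      · simp only [hq, hh, hcardN ω i hi, sub_self]; exact le_refl _
    · by_cases hi : i ∈ A ω
      · simp only [hq, hh, hcardA ω i hi]
        push_cast
        rcases le_total 1 (κ * ((A ω ∩ Ts (σ.symm i : Fin k)).card : ℝ)) with h1 | h1
        · rw [min_eq_left h1]
          have := min_le_left (1 : ℝ) (κ * (((A ω ∩ Ts (σ.symm i : Fin k)).card : ℝ) + 1))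
          linarith
        · rw [min_eq_right h1]
          have := min_le_right (1 : ℝ) (κ * (((A ω ∩ Ts (σ.symm i : Fin k)).card : ℝ) + 1))
          linarith
      · simp only [hq, hh, hcardN ω i hi, sub_self]; exact hκ
    · simp only [hq, hh, hcardN ω i hi, sub_self]
    · have e1 : ∑ i, q ω i = ∑ j : Fin k, (h ω ((j : ℕ) + 1) - h ω j) := by
        rw [← Equiv.sum_comp σ]
        refine Finset.sum_congr rfl fun j _ => ?_
        simp [hq]
      rw [e1, Fin.sum_univ_eq_sum_range (fun j => h ω (j + 1) - h ω j) k,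
        Finset.sum_range_sub]
      simp only [hh, hTs0, hTsk, Finset.inter_empty, Finset.card_empty, Finset.inter_univ]
      rw [min_eq_left (hA ω)]
      simp
  set H : ℕ → ℝ := fun j => ∑ ω, P ω * h ω j with hH
  have hH0 : H 0 = 0 := by
    simp [hH, hh, hTs0]
  have hHk : H k = 1 := by
    have e : H k = ∑ ω, P ω := by
      refine Finset.sum_congr rfl fun ω _ => ?_
      simp only [hh, hTsk, Finset.inter_univ]
      rw [min_eq_left (hA ω), mul_one]
    rw [e, hP1]
  have hTscard : ∀ j, j ≤ k → (Ts j).card = j := by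
    intro j hj
    have : Ts j = (univ.filter fun i : Fin k => (i : ℕ) < j).map σ.toEmbedding := by
      ext i
      simp only [hTs, mem_filter, mem_univ, true_and, mem_map, Equiv.coe_toEmbedding]
      constructor
      · intro hi
        exact ⟨σ.symm i, hi, by simp⟩
      · rintro ⟨a, ha, rfl⟩
        simpa using ha
    rw [this, Finset.card_map]
    have e2 : (univ.filter fun i : Fin k => (i : ℕ) < j) = univ.filter fun i : Fin k => (i : ℕ) < j := rfl
    rw [Fin.card_filter_val_lt]
    exact min_eq_right hj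
  have hHj : ∀ j, j ≤ k → (j : ℝ) / k ≤ H j := by
    intro j hj
    have := hall (Ts j)
    rw [hTscard j hj] at this
    exact this
  set D : ℕ → ℝ := fun j => if j ≤ k then H j - j / k else 0 with hD
  have hkk : (0 : ℝ) < k := by exact_mod_cast hk
  have hmain : ∑ j : Fin k, (D (j + 1) - D j) * (β ∘ σ) j ≤ 0 := by
    refine abel k D ?_ ?_ ?_ _ hσ
    · intro j
      simp only [hD]
      split_ifs with hj
      · have := hHj j hj; linarith
      · exact le_refl _
    · simp [hD, hH0]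
    · simp only [hD, le_refl, if_true, hHk]
      field_simp
      simp
  have e3 : f (Φ q) - f (fun _ : Fin k => (1 : ℝ) / k) =
      ∑ j : Fin k, (D (j + 1) - D j) * (β ∘ σ) j := by
    rw [hf, hf, ← Finset.sum_sub_distrib, ← Equiv.sum_comp σ]
    refine Finset.sum_congr rfl fun j _ => ?_
    have h1 : Φ q (σ j) = H ((j : ℕ) + 1) - H j := by
      rw [hΦa]
      simp only [hq, hH, Equiv.symm_apply_apply, mul_sub, Finset.sum_sub_distrib]
    have h2 : D ((j : ℕ) + 1) = H ((j : ℕ) + 1) - (((j : ℕ) + 1 : ℕ) : ℝ) / k := by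
      have : (j : ℕ) + 1 ≤ k := j.2
      simp only [hD, this, if_true]
    have h3 : D (j : ℕ) = H (j : ℕ) - ((j : ℕ) : ℝ) / k := by
      have : (j : ℕ) ≤ k := j.2.le
      simp only [hD, this, if_true]
    rw [h1, h2, h3]
    simp only [Function.comp]
    push_cast
    ring
  have h4 := hf2 (Φ q) ⟨q, hqK, rfl⟩
  linarith

end Pool.Agent.Helper721_F
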