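import Pool.Agent.Helper721_F.State

set_option autoImplicit false

open Finset BigOperators

namespace Pool.Agent.Helper721_F

variable {V C : Type} [DecidableEq V] [DecidableEq C]
variable {G : SimpleGraph V} {L : V → Finset C} {k w : ℕ}

open Classical in
/-- one more vertex can be coloured -/
theorem State.extend (hL : ∀ v, (L v).card = k) {W : Finset V} (s : State G L k w W) {d : ℕ}
    (hd : 1 ≤ d) (hw : 1 ≤ w) (hdk : d + w ≤ k) (hc : Cond d k w) {v : V} (hv : v ∉ W)
    (hdeg : (W.filter (G.Adj v)).card ≤ d) : Nonempty (State G L k w (insert v W)) := by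
  have hw0 : (0 : ℝ) < w := by exact_mod_cast hw
  have hk : 0 < k := by omega
  have hk0 : (0 : ℝ) < k := by exact_mod_cast hk
  set N : Finset V := W.filter (G.Adj v) with hN
  have hNW : N ⊆ W := Finset.filter_subset _ _
  let e : Fin k ≃ {x // x ∈ L v} := (Finset.equivFinOfCardEq (hL v)).symm
  have einj : Function.Injective (fun i => (e i : C)) := fun a b h => e.injective (Subtype.ext h)
  let A : s.Ω → Finset (Fin k) := fun ω => univ.filter fun i => (e i : C) ∉ N.image (s.c ω)
  have hAT : ∀ ω (T : Finset (Fin k)), (A ω ∩ T).card =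
      Z (s.c ω) N (T.image fun i => (e i : C)) := by
    intro ω T
    unfold Z
    rw [← Finset.card_image_of_injective (A ω ∩ T) einj]
    congr 1
    ext x
    simp only [A, mem_image, mem_inter, mem_filter, mem_univ, true_and, mem_sdiff]
    constructor
    · rintro ⟨i, ⟨h1, h2⟩, rfl⟩
      exact ⟨⟨i, h2, rfl⟩, h1⟩
    · rintro ⟨⟨i, h2, rfl⟩, h1⟩
      exact ⟨i, ⟨h1, h2⟩, rfl⟩
  have hAcard : ∀ ω, k - d ≤ (A ω).card := by
    intro ω
    have h1 := hAT ω univ
    rw [Finset.inter_univ] at h1
    rw [h1]
    unfold Z
    have h2 : (univ.image fun i : Fin k => (e i : C)).card = k := by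
      rw [Finset.card_image_of_injective _ einj]; simp
    have h3 := Finset.le_card_sdiff (N.image (s.c ω)) (univ.image fun i : Fin k => (e i : C))
    have h4 : (N.image (s.c ω)).card ≤ d := Finset.card_image_le.trans hdeg
    omega
  have hA : ∀ ω, 1 ≤ 1 / (w : ℝ) * (A ω).card := by
    intro ω
    have h1 : w ≤ (A ω).card := by have := hAcard ω; omega
    have h2 : (w : ℝ) ≤ (A ω).card := by exact_mod_cast h1
    rw [one_div, ← div_eq_inv_mul, le_div_iff₀ hw0]; linarith
  have hall : ∀ T : Finset (Fin k), (T.card : ℝ) / k ≤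
      ∑ ω, s.P ω * min 1 (1 / (w : ℝ) * ((A ω ∩ T).card : ℝ)) := by
    intro T
    have h1 := s.hall hd hw hdk hc hNW hdeg (T.image fun i => (e i : C)) (by
      rw [Finset.card_image_of_injective _ einj]
      simpa using Finset.card_le_univ T)
    rw [Finset.card_image_of_injective _ einj] at h1
    refine h1.trans (le_of_eq ?_)
    refine Finset.sum_congr rfl fun ω _ => ?_
    rw [hAT]
  obtain ⟨q, hq0, hqκ, hqA, hq1, hqu⟩ := coupling s.P s.nonneg s.sum_one k hk A (1 / (w : ℝ))
    (by positivity) hA hall
  have hqle1 : ∀ ω i, q ω i ≤ 1 := fun ω i => by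
    rw [← hq1 ω]
    exact Finset.single_le_sum (fun j _ => hq0 ω j) (Finset.mem_univ i)
  have hsum : ∀ f : s.Ω → ℝ, ∑ x : s.Ω × Fin k, f x.1 * q x.1 x.2 = ∑ ω, f ω := by
    intro f
    rw [Fintype.sum_prod_type]
    refine Finset.sum_congr rfl fun ω _ => ?_
    dsimp only
    rw [← Finset.mul_sum, hq1, mul_one]
  refine ⟨{
    Ω := s.Ω × Fin k
    fin := inferInstance
    P := fun x => s.P x.1 * q x.1 x.2
    c := fun x => Function.update (s.c x.1) v (e x.2)
    nonneg := fun x => mul_nonneg (s.nonneg _) (hq0 _ _)
    sum_one := by rw [hsum]; exact s.sum_one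
    mem := ?_
    proper := ?_
    unif := ?_
    inv := ?_ }⟩
  · rintro ⟨ω, i⟩ hP u hu
    dsimp only at hP ⊢
    have hP1 : s.P ω ≠ 0 := left_ne_zero_of_mul hP
    rcases Finset.mem_insert.mp hu with rfl | hu
    · simp
    · have huv : u ≠ v := fun h => hv (h ▸ hu)
      rw [Function.update_of_ne huv]
      exact s.mem ω hP1 u hu
  · rintro ⟨ω, i⟩ hP a ha b hb hab
    dsimp only at hP ⊢
    have hP1 : s.P ω ≠ 0 := left_ne_zero_of_mul hP
    have hq2 : q ω i ≠ 0 := right_ne_zero_of_mul hP
    have hi : i ∈ A ω := by
      by_contra h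
      exact hq2 (hqA ω i h)
    have hi' : (e i : C) ∉ N.image (s.c ω) := (Finset.mem_filter.mp hi).2
    rcases Finset.mem_insert.mp ha with ha' | ha'
    · rcases Finset.mem_insert.mp hb with hb' | hb'
      · rw [ha', hb'] at hab
        exact absurd hab (G.loopless.irrefl _)
      · have hbv : b ≠ v := fun h => hv (h ▸ hb')
        rw [ha'] at hab ⊢
        rw [Function.update_self, Function.update_of_ne hbv]
        intro h
        exact hi' (Finset.mem_image.mpr ⟨b, Finset.mem_filter.mpr ⟨hb', hab⟩, h.symm⟩)
    · have hav : a ≠ v := fun h => hv (h ▸ ha')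
      rcases Finset.mem_insert.mp hb with hb' | hb'
      · rw [hb'] at hab ⊢
        rw [Function.update_self, Function.update_of_ne hav]
        intro h
        exact hi' (Finset.mem_image.mpr ⟨a, Finset.mem_filter.mpr ⟨ha', hab.symm⟩, h⟩)
      · have hbv : b ≠ v := fun h => hv (h ▸ hb')
        rw [Function.update_of_ne hav, Function.update_of_ne hbv]
        exact s.proper ω hP1 a ha' b hb' hab
  · intro u hu x hx
    rcases Finset.mem_insert.mp hu with rfl | hu
    · -- the new vertex
      have h1 : ∀ y : s.Ω × Fin k, (if Function.update (s.c y.1) u (e y.2 : C) u = x then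
          s.P y.1 * q y.1 y.2 else 0) =
          if y.2 = e.symm ⟨x, hx⟩ then s.P y.1 * q y.1 y.2 else 0 := by
        rintro ⟨ω, i⟩
        dsimp only
        rw [Function.update_self]
        have : ((e i : C) = x) ↔ i = e.symm ⟨x, hx⟩ := by
          constructor
          · intro h
            rw [Equiv.eq_symm_apply]
            exact Subtype.ext h
          · rintro rfl
            simp
        simp only [this]
      rw [Finset.sum_congr rfl fun y _ => h1 y, Fintype.sum_prod_type, ← hqu (e.symm ⟨x, hx⟩)]
      refine Finset.sum_congr rfl fun ω _ => ?_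
      simp
    · have huv : u ≠ v := fun h => hv (h ▸ hu)
      have h1 : ∀ y : s.Ω × Fin k, (if Function.update (s.c y.1) v (e y.2 : C) u = x then
          s.P y.1 * q y.1 y.2 else 0) =
          (if s.c y.1 u = x then s.P y.1 else 0) * q y.1 y.2 := by
        rintro ⟨ω, i⟩
        dsimp only
        rw [Function.update_of_ne huv]
        split_ifs <;> simp
      rw [Finset.sum_congr rfl fun y _ => h1 y, hsum (fun ω => if s.c ω u = x then s.P ω else 0)]
      exact s.unif u hu x hx
  · intro U hU T ν hν hν1 j
    by_cases hvU : v ∈ U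
    · -- the new vertex is in U
      set U0 := U.erase v with hU0
      have hU0W : U0 ⊆ W := by
        intro u hu
        have h1 := Finset.mem_erase.mp hu
        exact (Finset.mem_insert.mp (hU h1.2)).resolve_left h1.1
      have hUcard : U.card = U0.card + 1 := (Finset.card_erase_add_one hvU).symm
      have himg : ∀ (ω : s.Ω) (i : Fin k), U.image (Function.update (s.c ω) v (e i : C)) =
          insert (e i : C) (U0.image (s.c ω)) := by
        intro ω i
        rw [← Finset.insert_erase hvU, Finset.image_insert, Function.update_self]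
        congr 1
        refine Finset.image_congr ?_
        intro u hu
        have : u ≠ v := (Finset.mem_erase.mp hu).1
        simp [Function.update_of_ne this]
      -- hits
      let hit : s.Ω → Finset (Fin k) := fun ω => univ.filter fun i => (e i : C) ∈ T \ U0.image (s.c ω)
      have hZ : ∀ (ω : s.Ω) (i : Fin k), Z (Function.update (s.c ω) v (e i : C)) U T =
          if i ∈ hit ω then Z (s.c ω) U0 T - 1 else Z (s.c ω) U0 T := by
        intro ω i
        unfold Z
        rw [himg ω i, Finset.sdiff_insert]
        split_ifs with h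
        · have h' : (e i : C) ∈ T \ U0.image (s.c ω) := (Finset.mem_filter.mp h).2
          rw [Finset.card_erase_of_mem h']
        · have h' : (e i : C) ∉ T \ U0.image (s.c ω) := fun h2 =>
            h (Finset.mem_filter.mpr ⟨Finset.mem_univ _, h2⟩)
          rw [Finset.erase_eq_of_notMem h']
      let p : s.Ω → ℝ := fun ω => ∑ i ∈ hit ω, q ω i
      have hp0 : ∀ ω, 0 ≤ p ω := fun ω => Finset.sum_nonneg fun i _ => hq0 ω i
      have hp1 : ∀ ω, p ω ≤ 1 := fun ω => by
        rw [← hq1 ω]
        exact Finset.sum_le_sum_of_subset_of_nonneg (Finset.subset_univ _) fun i _ _ => hq0 ω i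
      have hhitcard : ∀ ω, (hit ω).card ≤ Z (s.c ω) U0 T := by
        intro ω
        rw [← Finset.card_image_of_injective (hit ω) einj]
        unfold Z
        refine Finset.card_le_card ?_
        intro x hx
        obtain ⟨i, hi, rfl⟩ := Finset.mem_image.mp hx
        exact (Finset.mem_filter.mp hi).2
      have hpz : ∀ ω, p ω ≤ (Z (s.c ω) U0 T : ℝ) / w := by
        intro ω
        have h1 : p ω ≤ ∑ _i ∈ hit ω, 1 / (w : ℝ) := Finset.sum_le_sum fun i _ => hqκ ω i
        rw [Finset.sum_const, nsmul_eq_mul] at h1
        have h2 : ((hit ω).card : ℝ) ≤ Z (s.c ω) U0 T := by exact_mod_cast hhitcard ω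
        have h3 : (0 : ℝ) ≤ 1 / w := by positivity
        calc p ω ≤ ((hit ω).card : ℝ) * (1 / w) := h1
          _ ≤ (Z (s.c ω) U0 T : ℝ) * (1 / w) := by gcongr
          _ = (Z (s.c ω) U0 T : ℝ) / w := by ring
      have hinner : ∀ ω, ∑ i, q ω i * J w ν j (Z (Function.update (s.c ω) v (e i : C)) U T) =
          J w ν j (Z (s.c ω) U0 T) + p ω * (J w ν j (Z (s.c ω) U0 T - 1) -
            J w ν j (Z (s.c ω) U0 T)) := by
        intro ω
        have h1 : ∀ i, q ω i * J w ν j (Z (Function.update (s.c ω) v (e i : C)) U T) =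
            q ω i * J w ν j (Z (s.c ω) U0 T) + (if i ∈ hit ω then q ω i *
              (J w ν j (Z (s.c ω) U0 T - 1) - J w ν j (Z (s.c ω) U0 T)) else 0) := by
          intro i
          rw [hZ]
          split_ifs <;> ring
        rw [Finset.sum_congr rfl fun i _ => h1 i, Finset.sum_add_distrib, ← Finset.sum_mul, hq1,
          one_mul, Finset.sum_ite_mem, Finset.univ_inter, ← Finset.sum_mul]
      have hstep : ∀ ω, ∑ i, q ω i * J w ν j (Z (Function.update (s.c ω) v (e i : C)) U T) ≤
          J w ν (j + 1) (Z (s.c ω) U0 T) + ν * p ω := by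
        intro ω
        rw [hinner]
        exact J_step hw hν hν1 j _ (p ω) (hp0 ω) (hp1 ω) (hpz ω)
      have hPp : ∑ ω, s.P ω * p ω ≤ (T.card : ℝ) / k := by
        have h1 : ∀ ω, s.P ω * p ω ≤ ∑ i ∈ univ.filter (fun i : Fin k => (e i : C) ∈ T),
            s.P ω * q ω i := by
          intro ω
          rw [← Finset.mul_sum]
          refine mul_le_mul_of_nonneg_left ?_ (s.nonneg ω)
          refine Finset.sum_le_sum_of_subset_of_nonneg ?_ fun i _ _ => hq0 ω i
          intro i hi
          have h2 := (Finset.mem_filter.mp hi).2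
          exact Finset.mem_filter.mpr ⟨Finset.mem_univ _, (Finset.mem_sdiff.mp h2).1⟩
        refine (Finset.sum_le_sum fun ω _ => h1 ω).trans ?_
        rw [Finset.sum_comm, Finset.sum_congr rfl fun i _ => hqu i, Finset.sum_const, nsmul_eq_mul]
        have h3 : ((univ.filter fun i : Fin k => (e i : C) ∈ T).card : ℝ) ≤ T.card := by
          have : (univ.filter fun i : Fin k => (e i : C) ∈ T).card ≤ T.card := by
            rw [← Finset.card_image_of_injective _ einj]
            refine Finset.card_le_card ?_
            intro x hx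
            obtain ⟨i, hi, rfl⟩ := Finset.mem_image.mp hx
            exact (Finset.mem_filter.mp hi).2
          exact_mod_cast this
        have h4 : (0 : ℝ) ≤ 1 / k := by positivity
        calc ((univ.filter fun i : Fin k => (e i : C) ∈ T).card : ℝ) * (1 / k) ≤
            T.card * (1 / k) := by gcongr
          _ = T.card / k := by ring
      rw [Fintype.sum_prod_type]
      dsimp only
      have h5 : ∀ ω, ∑ i, s.P ω * q ω i * J w ν j (Z (Function.update (s.c ω) v (e i : C)) U T) ≤
          s.P ω * J w ν (j + 1) (Z (s.c ω) U0 T) + ν * (s.P ω * p ω) := by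
        intro ω
        have : ∑ i, s.P ω * q ω i * J w ν j (Z (Function.update (s.c ω) v (e i : C)) U T) =
            s.P ω * ∑ i, q ω i * J w ν j (Z (Function.update (s.c ω) v (e i : C)) U T) := by
          rw [Finset.mul_sum]
          refine Finset.sum_congr rfl fun i _ => by ring
        rw [this]
        have := mul_le_mul_of_nonneg_left (hstep ω) (s.nonneg ω)
        linarith
      refine (Finset.sum_le_sum fun ω _ => h5 ω).trans ?_
      rw [Finset.sum_add_distrib, ← Finset.mul_sum]
      have h6 := s.inv U0 hU0W T ν hν hν1 (j + 1)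
      have h7 : ν * ∑ ω, s.P ω * p ω ≤ ν * (T.card / k) := by gcongr
      have e1 : j + 1 + U0.card = j + U.card := by omega
      rw [e1] at h6
      have e2 : ν * (U.card : ℝ) * T.card / k = ν * U0.card * T.card / k + ν * (T.card / k) := by
        rw [hUcard]; push_cast; ring
      rw [e2]
      linarith
    · -- the new vertex is not in U
      have hUW : U ⊆ W := by
        intro u hu
        refine (Finset.mem_insert.mp (hU hu)).resolve_left ?_
        rintro rfl
        exact hvU hu
      have hZ : ∀ (ω : s.Ω) (i : Fin k), Z (Function.update (s.c ω) v (e i : C)) U T =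
          Z (s.c ω) U T := by
        intro ω i
        unfold Z
        congr 2
        refine Finset.image_congr ?_
        intro u hu
        have : u ≠ v := fun h => hvU (h ▸ hu)
        simp [Function.update_of_ne this]
      have h1 : ∀ y : s.Ω × Fin k, s.P y.1 * q y.1 y.2 *
          J w ν j (Z (Function.update (s.c y.1) v (e y.2 : C)) U T) =
          (s.P y.1 * J w ν j (Z (s.c y.1) U T)) * q y.1 y.2 := by
        intro y
        rw [hZ]; ring
      rw [Finset.sum_congr rfl fun y _ => h1 y, hsum (fun ω => s.P ω * J w ν j (Z (s.c ω) U T))]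
      exact s.inv U hUW T ν hν hν1 j

end Pool.Agent.Helper721_F
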