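import Mathlib

set_option autoImplicit false

namespace Pool.Agent.Helper721_F

/-- polynomial inequality -/
lemma poly_ineq (y : ℝ) (h0 : 0 ≤ y) (h2 : y ≤ 2) :
    (2 - y) * (5 - y) ≤ (1 - y / 6) ^ 6 * (18 - 5 * y) := by
  obtain ⟨v, hv⟩ : ∃ v : ℝ, y = 2 - v := ⟨2 - y, by ring⟩
  subst hv
  have hv0 : 0 ≤ v := by linarith
  have e : (1 - (2 - v) / 6) ^ 6 * (18 - 5 * (2 - v)) - (2 - (2 - v)) * (5 - (2 - v)) =
      (32768 - 70336 * v + 14784 * v ^ 2 + 29440 * v ^ 3 + 8320 * v ^ 4 + 1392 * v ^ 5 +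
        128 * v ^ 6 + 5 * v ^ 7) / 46656 := by
    ring
  have h5 : 0 ≤ 1392 * v ^ 5 + 128 * v ^ 6 + 5 * v ^ 7 := by positivity
  have h6 : 0 ≤ 32768 - 70336 * v + 14784 * v ^ 2 + 29440 * v ^ 3 + 8320 * v ^ 4 := by
    nlinarith [sq_nonneg (v - 2 / 3), sq_nonneg (v ^ 2 - 4 / 9), mul_nonneg hv0 (sq_nonneg (v - 2 / 3)),
      mul_nonneg hv0 hv0]
  have : 0 ≤ (1 - (2 - v) / 6) ^ 6 * (18 - 5 * (2 - v)) - (2 - (2 - v)) * (5 - (2 - v)) := by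
    rw [e]
    exact div_nonneg (by linarith) (by norm_num)
  linarith

lemma pow_lower (w n : ℕ) (hw : 1 ≤ w) (hn : 6 ≤ n) (hn2 : n ≤ 6 * w) :
    (1 - (n : ℝ) / w / 6) ^ 6 ≤ (1 - 1 / (w : ℝ)) ^ n := by
  have hw0 : (0 : ℝ) < w := by exact_mod_cast hw
  have hw1 : (1 : ℝ) ≤ w := by exact_mod_cast hw
  have h1 : (0 : ℝ) ≤ 1 - 1 / w := by
    have : 1 / (w : ℝ) ≤ 1 := by rw [div_le_one hw0]; exact hw1
    linarith
  have hn6 : (1 : ℝ) ≤ (n : ℝ) / 6 := by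
    rw [le_div_iff₀ (by norm_num)]
    have : (6 : ℝ) ≤ n := by exact_mod_cast hn
    linarith
  have h2 := one_add_mul_self_le_rpow_one_add (s := -(1 / (w : ℝ))) (by linarith) hn6
  have h3 : (0 : ℝ) ≤ 1 - (n : ℝ) / w / 6 := by
    have : (n : ℝ) ≤ 6 * w := by exact_mod_cast hn2
    have : (n : ℝ) / w / 6 ≤ 1 := by
      rw [div_div, div_le_one (by positivity)]; linarith
    linarith
  have e1 : (1 : ℝ) + (n : ℝ) / 6 * -(1 / (w : ℝ)) = 1 - (n : ℝ) / w / 6 := by ring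
  rw [e1] at h2
  have e2 : (1 : ℝ) + -(1 / (w : ℝ)) = 1 - 1 / w := by ring
  rw [e2] at h2
  calc (1 - (n : ℝ) / w / 6) ^ 6 ≤ ((1 - 1 / (w : ℝ)) ^ ((n : ℝ) / 6)) ^ 6 :=
        pow_le_pow_left₀ h3 h2 6
    _ = (1 - 1 / (w : ℝ)) ^ n := by
      rw [← Real.rpow_natCast ((1 - 1 / (w : ℝ)) ^ ((n : ℝ) / 6)) 6, ← Real.rpow_mul h1]
      have : (n : ℝ) / 6 * ((6 : ℕ) : ℝ) = n := by push_cast; ring
      rw [this, Real.rpow_natCast]

lemma key_ineq (w n : ℕ) (hw : 5 ≤ w) (hn2 : n ≤ 2 * w) :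
    (2 - (n : ℝ) / w) * (5 - (n : ℝ) / w) ≤ (1 - 1 / (w : ℝ)) ^ n * (18 - 5 * ((n : ℝ) / w)) := by
  have hw0 : (0 : ℝ) < w := by exact_mod_cast (by omega : 0 < w)
  have hnw : (n : ℝ) / w ≤ 2 := by
    rw [div_le_iff₀ hw0]; exact_mod_cast hn2
  have hn0 : 0 ≤ (n : ℝ) / w := by positivity
  rcases Nat.lt_or_ge n 6 with hn | hn
  · obtain ⟨v, rfl⟩ : ∃ v, w = 5 + v := ⟨w - 5, by omega⟩
    have hv : (0 : ℝ) ≤ v := Nat.cast_nonneg _
    have hw' : ((5 + v : ℕ) : ℝ) = 5 + v := by push_cast; ring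
    rw [hw'] at *
    have hne : (5 + (v : ℝ)) ≠ 0 := by positivity
    interval_cases n
    · have e : (1 - 1 / (5 + (v : ℝ))) ^ 0 * (18 - 5 * (((0 : ℕ) : ℝ) / (5 + v))) -
          (2 - ((0 : ℕ) : ℝ) / (5 + v)) * (5 - ((0 : ℕ) : ℝ) / (5 + v)) =
          (200 + 80 * v ^ 1 + 8 * v ^ 2) / (5 + (v : ℝ)) ^ 2 := by
        field_simp; push_cast; ring
      have : 0 ≤ (200 + 80 * v ^ 1 + 8 * v ^ 2) / (5 + (v : ℝ)) ^ 2 := by positivity
      linarith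
    · have e : (1 - 1 / (5 + (v : ℝ))) ^ 1 * (18 - 5 * (((1 : ℕ) : ℝ) / (5 + v))) -
          (2 - ((1 : ℕ) : ℝ) / (5 + v)) * (5 - ((1 : ℕ) : ℝ) / (5 + v)) =
          (620 + 444 * v ^ 1 + 104 * v ^ 2 + 8 * v ^ 3) / (5 + (v : ℝ)) ^ 3 := by
        field_simp; push_cast; ring
      have : 0 ≤ (620 + 444 * v ^ 1 + 104 * v ^ 2 + 8 * v ^ 3) / (5 + (v : ℝ)) ^ 3 := by positivity
      linarith
    · have e : (1 - 1 / (5 + (v : ℝ))) ^ 2 * (18 - 5 * (((2 : ℕ) : ℝ) / (5 + v))) -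
          (2 - ((2 : ℕ) : ℝ) / (5 + v)) * (5 - ((2 : ℕ) : ℝ) / (5 + v)) =
          (1800 + 1930 * v ^ 1 + 754 * v ^ 2 + 128 * v ^ 3 + 8 * v ^ 4) / (5 + (v : ℝ)) ^ 4 := by
        field_simp; push_cast; ring
      have : 0 ≤ (1800 + 1930 * v ^ 1 + 754 * v ^ 2 + 128 * v ^ 3 + 8 * v ^ 4) / (5 + (v : ℝ)) ^ 4 := by positivity
      linarith
    · have e : (1 - 1 / (5 + (v : ℝ))) ^ 3 * (18 - 5 * (((3 : ℕ) : ℝ) / (5 + v))) -
          (2 - ((3 : ℕ) : ℝ) / (5 + v)) * (5 - ((3 : ℕ) : ℝ) / (5 + v)) =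
          (4750 + 7135 * v ^ 1 + 4087 * v ^ 2 + 1130 * v ^ 3 + 152 * v ^ 4 + 8 * v ^ 5) / (5 + (v : ℝ)) ^ 5 := by
        field_simp; push_cast; ring
      have : 0 ≤ (4750 + 7135 * v ^ 1 + 4087 * v ^ 2 + 1130 * v ^ 3 + 152 * v ^ 4 + 8 * v ^ 5) / (5 + (v : ℝ)) ^ 5 := by positivity
      linarith
    · have e : (1 - 1 / (5 + (v : ℝ))) ^ 4 * (18 - 5 * (((4 : ℕ) : ℝ) / (5 + v))) -
          (2 - ((4 : ℕ) : ℝ) / (5 + v)) * (5 - ((4 : ℕ) : ℝ) / (5 + v)) =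
          (10850 + 22560 * v ^ 1 + 18018 * v ^ 2 + 7248 * v ^ 3 + 1572 * v ^ 4 + 176 * v ^ 5 + 8 * v ^ 6) / (5 + (v : ℝ)) ^ 6 := by
        field_simp; push_cast; ring
      have : 0 ≤ (10850 + 22560 * v ^ 1 + 18018 * v ^ 2 + 7248 * v ^ 3 + 1572 * v ^ 4 + 176 * v ^ 5 + 8 * v ^ 6) / (5 + (v : ℝ)) ^ 6 := by positivity
      linarith
    · have e : (1 - 1 / (5 + (v : ℝ))) ^ 5 * (18 - 5 * (((5 : ℕ) : ℝ) / (5 + v))) -
          (2 - ((5 : ℕ) : ℝ) / (5 + v)) * (5 - ((5 : ℕ) : ℝ) / (5 + v)) =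
          (20300 + 59095 * v ^ 1 + 65457 * v ^ 2 + 36740 * v ^ 3 + 11570 * v ^ 4 + 2080 * v ^ 5 + 200 * v ^ 6 + 8 * v ^ 7) / (5 + (v : ℝ)) ^ 7 := by
        field_simp; push_cast; ring
      have : 0 ≤ (20300 + 59095 * v ^ 1 + 65457 * v ^ 2 + 36740 * v ^ 3 + 11570 * v ^ 4 + 2080 * v ^ 5 + 200 * v ^ 6 + 8 * v ^ 7) / (5 + (v : ℝ)) ^ 7 := by positivity
      linarith
  · refine (poly_ineq _ hn0 hnw).trans ?_
    have h1 := pow_lower w n (by omega) hn (by omega)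
    refine mul_le_mul_of_nonneg_right h1 (by linarith)

/-- the numerical condition, with the variables of `Cond` -/
lemma cond_seven_quarters (w k t : ℕ) (hw : 5 ≤ w) (hk : 7 * w ≤ k) (ht : k - 4 * w < t)
    (htk : t ≤ k) :
    (1 - (1 - 1 / (w : ℝ)) ^ (4 * w - (t - w))) * (((4 * w : ℕ) : ℝ) * t - ((k : ℝ) - t) * w) ≤
      ((k : ℝ) - t) * ((t : ℝ) - w) := by
  have hw0 : (0 : ℝ) < w := by exact_mod_cast (by omega : 0 < w)
  have hkt : (0 : ℝ) ≤ (k : ℝ) - t := by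
    have : (t : ℝ) ≤ k := by exact_mod_cast htk
    linarith
  have hwt : (0 : ℝ) ≤ (t : ℝ) - w := by
    have : (w : ℝ) ≤ t := by exact_mod_cast (by omega : w ≤ t)
    linarith
  rcases Nat.lt_or_ge t (5 * w) with h5 | h5
  · obtain ⟨n, hn⟩ : ∃ n, t + n = 5 * w := ⟨5 * w - t, by omega⟩
    have hn2 : n ≤ 2 * w := by omega
    have e1 : 4 * w - (t - w) = n := by omega
    rw [e1]
    have hn' : (t : ℝ) = 5 * w - n := by
      have : (t : ℝ) + n = 5 * w := by exact_mod_cast hn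
      linarith
    have hk' : (7 : ℝ) * w ≤ k := by exact_mod_cast hk
    have hn2' : (n : ℝ) ≤ 2 * w := by exact_mod_cast hn2
    have key := key_ineq w n hw hn2
    have h1 : (0 : ℝ) ≤ 1 - 1 / w := by
      have : 1 / (w : ℝ) ≤ 1 := by
        rw [div_le_one hw0]; exact_mod_cast (by omega : 1 ≤ w)
      linarith
    have hR1 : (1 - 1 / (w : ℝ)) ^ n ≤ 1 := pow_le_one₀ h1 (by
      have : (0 : ℝ) ≤ 1 / w := by positivity
      linarith)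
    set R : ℝ := (1 - 1 / (w : ℝ)) ^ n with hR
    have key2 : (2 * (w : ℝ) - n) * (5 * w - n) ≤ R * w * (18 * w - 5 * n) := by
      have e2 : (2 * (w : ℝ) - n) * (5 * w - n) = w ^ 2 * ((2 - (n : ℝ) / w) * (5 - (n : ℝ) / w)) := by
        field_simp
      have e3 : R * w * (18 * w - 5 * n) = w ^ 2 * (R * (18 - 5 * ((n : ℝ) / w))) := by
        field_simp
      rw [e2, e3]
      exact mul_le_mul_of_nonneg_left key (by positivity)
    have h7 : (1 - R) * (((4 * w : ℕ) : ℝ) * t - ((k : ℝ) - t) * w) ≤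
        (1 - R) * (w * (18 * w - 5 * n)) := by
      refine mul_le_mul_of_nonneg_left ?_ (by linarith)
      push_cast
      rw [hn']
      nlinarith
    have h8 : (2 * (w : ℝ) + n) * (4 * w - n) ≤ ((k : ℝ) - t) * ((t : ℝ) - w) := by
      rw [hn']
      have : (0 : ℝ) ≤ 4 * w - n := by linarith
      nlinarith
    nlinarith
  · have e1 : 4 * w - (t - w) = 0 := by omega
    rw [e1]
    simp only [pow_zero, sub_self, zero_mul]
    positivity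

/-- the numerical condition for `w = 2` -/
lemma cond_two (d k t : ℕ) (hd : 6 ≤ d) (hk : 2 * d - 1 ≤ k) (ht : k - d < t) (htk : t ≤ k) :
    (1 - (1 - 1 / ((2 : ℕ) : ℝ)) ^ (d - (t - 2))) * ((d : ℝ) * t - ((k : ℝ) - t) * ((2 : ℕ) : ℝ)) ≤
      ((k : ℝ) - t) * ((t : ℝ) - ((2 : ℕ) : ℝ)) := by
  have hkt : (0 : ℝ) ≤ (k : ℝ) - t := by
    have : (t : ℝ) ≤ k := by exact_mod_cast htk
    linarith
  have hwt : (0 : ℝ) ≤ (t : ℝ) - ((2 : ℕ) : ℝ) := by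
    have : ((2 : ℕ) : ℝ) ≤ t := by exact_mod_cast (by omega : 2 ≤ t)
    linarith
  have hd' : (6 : ℝ) ≤ d := by exact_mod_cast hd
  have hk' : 2 * (d : ℝ) - 1 ≤ k := by
    have : 2 * d ≤ k + 1 := by omega
    have : 2 * (d : ℝ) ≤ k + 1 := by exact_mod_cast this
    linarith
  rcases Nat.lt_or_ge t (d + 2) with h | h
  · have h' : t = d ∨ t = d + 1 := by omega
    rcases h' with rfl | rfl
    · have e1 : t - (t - 2) = 2 := by omega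
      rw [e1]
      push_cast
      nlinarith
    · have e1 : d - (d + 1 - 2) = 1 := by omega
      rw [e1]
      push_cast
      nlinarith
  · have e1 : d - (t - 2) = 0 := by omega
    rw [e1]
    simp only [pow_zero, sub_self, zero_mul]
    positivity

end Pool.Agent.Helper721_F
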