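import Pool.Agent.Helper721_F.Extend
import Pool.Agent.Helper721_F.Numeric

set_option autoImplicit false

open Finset BigOperators

namespace Pool.Agent.Helper721_F

open Classical in
/-- all vertices can be coloured -/
theorem exists_state {V C : Type} (G : SimpleGraph V) (L : V → Finset C) {k w d : ℕ}
    (hL : ∀ v, (L v).card = k) (hd : 1 ≤ d) (hw : 1 ≤ w) (hdk : d + w ≤ k) (hc : Cond d k w)
    (hdeg : ∀ W : Finset V, W.Nonempty → ∃ v ∈ W, (W.filter (G.Adj v)).card ≤ d) :
    ∀ (n : ℕ) (W : Finset V), W.card = n → Nonempty (State G L k w W) := by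
  intro n
  induction n with
  | zero =>
    intro W hW
    rw [Finset.card_eq_zero.mp hW]
    exact ⟨State.empty (by omega) hL⟩
  | succ n ih =>
    intro W hW
    obtain ⟨v, hv, hvd⟩ := hdeg W (Finset.card_pos.mp (by omega))
    obtain ⟨s⟩ := ih (W.erase v) (by rw [Finset.card_erase_of_mem hv]; omega)
    have h1 : ((W.erase v).filter (G.Adj v)).card ≤ d :=
      (Finset.card_le_card (Finset.filter_subset_filter _ (Finset.erase_subset _ _))).trans hvd
    have := State.extend hL s hd hw hdk hc (Finset.notMem_erase v W) h1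
    rwa [Finset.insert_erase hv] at this

open Classical in
/-- the law as a probability mass function -/
theorem exists_pmf {V C : Type} [Fintype V] (G : SimpleGraph V) (L : V → Finset C) {k w d : ℕ}
    (hL : ∀ v, (L v).card = k) (hd : 1 ≤ d) (hw : 1 ≤ w) (hdk : d + w ≤ k) (hc : Cond d k w)
    (hdeg : ∀ W : Finset V, W.Nonempty → ∃ v ∈ W, (W.filter (G.Adj v)).card ≤ d) :
    ∃ μ : PMF (V → C), (∀ c ∈ μ.support, (∀ v, c v ∈ L v) ∧ ∀ u v, G.Adj u v → c u ≠ c v) ∧
      ∀ v, ∀ x ∈ L v, (μ.map fun c => c v) x = 1 / (k : ENNReal) := by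
  obtain ⟨s⟩ := exists_state G L hL hd hw hdk hc hdeg _ (Finset.univ : Finset V) rfl
  have hk0 : (0 : ℝ) < k := by exact_mod_cast (by omega : 0 < k)
  let P0 : PMF s.Ω := PMF.ofFintype (fun ω => ENNReal.ofReal (s.P ω)) (by
    rw [← ENNReal.ofReal_sum_of_nonneg fun ω _ => s.nonneg ω, s.sum_one]; simp)
  have hP0 : ∀ ω, P0 ω = ENNReal.ofReal (s.P ω) := fun ω => by
    simp [P0]
  refine ⟨P0.map s.c, ?_, ?_⟩
  · intro c hc
    rw [PMF.support_map] at hc
    obtain ⟨ω, hω, rfl⟩ := hc
    have hne : s.P ω ≠ 0 := by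
      intro h
      rw [PMF.mem_support_iff, hP0, h] at hω
      simp at hω
    exact ⟨fun v => s.mem ω hne v (Finset.mem_univ _),
      fun u v huv => s.proper ω hne u (Finset.mem_univ _) v (Finset.mem_univ _) huv⟩
  · intro v x hx
    rw [PMF.map_comp, PMF.map_apply, tsum_fintype]
    have h1 : ∀ ω, (if x = ((fun c => c v) ∘ s.c) ω then P0 ω else 0) =
        ENNReal.ofReal (if s.c ω v = x then s.P ω else 0) := by
      intro ω
      simp only [Function.comp, hP0]
      by_cases h : s.c ω v = x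
      · rw [if_pos h.symm, if_pos h]
      · rw [if_neg (fun h' => h h'.symm), if_neg h, ENNReal.ofReal_zero]
    rw [Finset.sum_congr rfl fun ω _ => h1 ω, ← ENNReal.ofReal_sum_of_nonneg, 
      s.unif v (Finset.mem_univ _) x hx]
    · rw [ENNReal.ofReal_div_of_pos hk0, ENNReal.ofReal_one, ENNReal.ofReal_natCast]
    · intro ω _
      split_ifs
      · exact s.nonneg ω
      · exact le_rfl

end Pool.Agent.Helper721_F
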