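import Mathlib

/-!
# The potential function
-/

set_option autoImplicit false

namespace Pool.Agent.Helper721_F

/-- the value function -/
noncomputable def J (w : ℕ) (ν : ℝ) (j z : ℕ) : ℝ :=
  if z ≤ w then (1 - (1 - 1 / (w : ℝ)) ^ j * z / w) - ν * z * (1 - (1 - 1 / (w : ℝ)) ^ j)
  else max 0 ((1 - (1 - 1 / (w : ℝ)) ^ (j - (z - w))) * (1 - ν * w) - ν * ((z : ℝ) - w))

variable {w : ℕ} {ν : ℝ}

lemma rho_nonneg (hw : 1 ≤ w) : 0 ≤ 1 - 1 / (w : ℝ) := by
  have : (1 : ℝ) ≤ w := by exact_mod_cast hw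
  have h2 : 1 / (w : ℝ) ≤ 1 := by
    rw [div_le_one (by linarith)]; exact this
  linarith

lemma rho_le_one (hw : 1 ≤ w) : 1 - 1 / (w : ℝ) ≤ 1 := by
  have : (0 : ℝ) ≤ 1 / (w : ℝ) := by positivity
  linarith

lemma nuw_le (hw : 1 ≤ w) (hν1 : ν ≤ 1 / w) : ν * w ≤ 1 := by
  have h : (0 : ℝ) < w := by exact_mod_cast hw
  calc ν * w ≤ 1 / w * w := by gcongr
    _ = 1 := by field_simp

lemma J_of_le {j z : ℕ} (hz : z ≤ w) :
    J w ν j z = (1 - (1 - 1 / (w : ℝ)) ^ j * z / w) - ν * z * (1 - (1 - 1 / (w : ℝ)) ^ j) := by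
  unfold J; rw [if_pos hz]

/-- the second formula is also valid at `z = w` -/
lemma J_of_ge (hw : 1 ≤ w) (hν1 : ν ≤ 1 / w) {j z : ℕ} (hz : w ≤ z) :
    J w ν j z =
      max 0 ((1 - (1 - 1 / (w : ℝ)) ^ (j - (z - w))) * (1 - ν * w) - ν * ((z : ℝ) - w)) := by
  rcases Nat.lt_or_ge w z with h | h
  · unfold J; rw [if_neg (by omega)]
  · have e : z = w := le_antisymm h hz
    subst e
    have hz0 : (0 : ℝ) < z := by exact_mod_cast hw
    rw [J_of_le le_rfl]
    have h1 : (1 - (1 - 1 / (z : ℝ)) ^ j * z / z) - ν * z * (1 - (1 - 1 / (z : ℝ)) ^ j) =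
        (1 - (1 - 1 / (z : ℝ)) ^ j) * (1 - ν * z) := by
      field_simp
    rw [h1, Nat.sub_self, Nat.sub_zero, sub_self, mul_zero, sub_zero, max_eq_right]
    refine mul_nonneg ?_ ?_
    · have := pow_le_one₀ (n := j) (rho_nonneg hw) (rho_le_one hw)
      linarith
    · have := nuw_le hw hν1
      linarith

lemma J_mono (hw : 1 ≤ w) (hν : 0 ≤ ν) (hν1 : ν ≤ 1 / w) {j j' z : ℕ} (hz : w ≤ z)
    (hj : j ≤ j') : J w ν j z ≤ J w ν j' z := by
  rw [J_of_ge hw hν1 hz, J_of_ge hw hν1 hz]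
  refine max_le_max le_rfl ?_
  have h1 : (1 - 1 / (w : ℝ)) ^ (j' - (z - w)) ≤ (1 - 1 / (w : ℝ)) ^ (j - (z - w)) :=
    pow_le_pow_of_le_one (rho_nonneg hw) (rho_le_one hw) (by omega)
  have h2 := nuw_le hw hν1
  have h3 : 0 ≤ 1 - ν * w := by linarith
  have := mul_le_mul_of_nonneg_right (sub_le_sub_left h1 1) h3
  linarith

/-- the one step inequality -/
lemma J_step (hw : 1 ≤ w) (hν : 0 ≤ ν) (hν1 : ν ≤ 1 / w) (j z : ℕ) (p : ℝ) (hp : 0 ≤ p)
    (hp1 : p ≤ 1) (hpz : p ≤ (z : ℝ) / w) :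
    J w ν j z + p * (J w ν j (z - 1) - J w ν j z) ≤ J w ν (j + 1) z + ν * p := by
  have hw0 : (0 : ℝ) < w := by exact_mod_cast hw
  rcases Nat.eq_zero_or_pos z with hz | hz
  · subst hz
    have : p = 0 := le_antisymm (by simpa using hpz) hp
    subst this
    rw [J_of_le (Nat.zero_le _), J_of_le (Nat.zero_le _)]
    simp
  rcases Nat.lt_or_ge w z with h | h
  · -- z > w
    have hz1 : w ≤ z - 1 := by omega
    have hz2 : w ≤ z := h.le
    have a1 : J w ν j z ≤ J w ν (j + 1) z := J_mono hw hν hν1 hz2 (Nat.le_succ j)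
    have a2 : J w ν j (z - 1) - ν ≤ J w ν (j + 1) z := by
      rw [J_of_ge hw hν1 hz1, J_of_ge hw hν1 hz2]
      have e : j + 1 - (z - w) = j - (z - 1 - w) ∨ (j + 1 - (z - w) = j - (z - 1 - w)) := by
        left; omega
      have e1 : j + 1 - (z - w) = j - (z - 1 - w) := by omega
      rw [e1]
      have e2 : ((z - 1 : ℕ) : ℝ) = (z : ℝ) - 1 := by
        rw [Nat.cast_sub (by omega)]; simp
      rw [e2]
      rcases le_total 0 ((1 - (1 - 1 / (w : ℝ)) ^ (j - (z - 1 - w))) * (1 - ν * w) -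
          ν * (((z : ℝ) - 1) - w)) with h0 | h0
      · rw [max_eq_right h0]
        refine le_trans ?_ (le_max_right _ _)
        linarith
      · rw [max_eq_left h0]
        refine le_trans ?_ (le_max_left _ _)
        linarith
    nlinarith
  · -- z ≤ w
    rw [J_of_le h, J_of_le (by omega : z - 1 ≤ w), J_of_le h]
    have e2 : ((z - 1 : ℕ) : ℝ) = (z : ℝ) - 1 := by
      rw [Nat.cast_sub (by omega)]; simp
    rw [e2]
    set R : ℝ := (1 - 1 / (w : ℝ)) ^ j with hR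
    have hR0 : 0 ≤ R := pow_nonneg (rho_nonneg hw) j
    have e3 : (1 - 1 / (w : ℝ)) ^ (j + 1) = R * (1 - 1 / w) := by rw [pow_succ]
    rw [e3]
    have key : 0 ≤ ((z : ℝ) / w - p) * (R * (1 / w - ν)) := by
      refine mul_nonneg (by linarith) (mul_nonneg hR0 (by linarith))
    have e4 : ((1 - R * (1 - 1 / w) * z / w) - ν * z * (1 - R * (1 - 1 / w))) + ν * p -
        (((1 - R * z / w) - ν * z * (1 - R)) + p * (((1 - R * ((z : ℝ) - 1) / w) -
          ν * ((z : ℝ) - 1) * (1 - R)) - ((1 - R * z / w) - ν * z * (1 - R)))) =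
        ((z : ℝ) / w - p) * (R * (1 / w - ν)) := by
      field_simp
      ring
    linarith

/-- `J 0 z` is `1 - min 1 (z / w)` -/
lemma J_zero (hw : 1 ≤ w) (hν : 0 ≤ ν) (hν1 : ν ≤ 1 / w) (z : ℕ) :
    J w ν 0 z = 1 - min 1 (1 / (w : ℝ) * z) := by
  have hw0 : (0 : ℝ) < w := by exact_mod_cast hw
  rcases Nat.lt_or_ge w z with h | h
  · rw [J_of_ge hw hν1 h.le]
    have h1 : (w : ℝ) ≤ z := by exact_mod_cast h.le
    have h2 : (1 : ℝ) ≤ 1 / (w : ℝ) * z := by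
      rw [one_div, ← div_eq_inv_mul, le_div_iff₀ hw0]; linarith
    rw [min_eq_left h2]
    simp only [Nat.zero_sub, pow_zero, sub_self, zero_mul, zero_sub]
    rw [max_eq_left]
    have := mul_nonneg hν (sub_nonneg.mpr h1)
    linarith
  · rw [J_of_le h]
    have h1 : (z : ℝ) ≤ w := by exact_mod_cast h
    have h2 : 1 / (w : ℝ) * z ≤ 1 := by
      rw [one_div, ← div_eq_inv_mul, div_le_one hw0]; exact h1
    rw [min_eq_right h2]
    simp only [pow_zero, sub_self, mul_zero, sub_zero]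
    ring

end Pool.Agent.Helper721_F
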