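import Pool.Agent.Helper721_F.Coupling
import Pool.Agent.Helper721_F.Potential

/-!
# Colouring the vertices one by one
-/

set_option autoImplicit false

open Finset BigOperators

namespace Pool.Agent.Helper721_F

variable {V C : Type} [DecidableEq V] [DecidableEq C]

/-- number of colours of `T` that are not used on `U` -/
def Z (c : V → C) (U : Finset V) (T : Finset C) : ℕ := (T \ U.image c).card

/-- A law on the colourings of `W` with uniform marginals and the invariant. -/
structure State (G : SimpleGraph V) (L : V → Finset C) (k w : ℕ) (W : Finset V) where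
  Ω : Type
  fin : Fintype Ω
  P : Ω → ℝ
  c : Ω → V → C
  nonneg : ∀ ω, 0 ≤ P ω
  sum_one : ∑ ω, P ω = 1
  mem : ∀ ω, P ω ≠ 0 → ∀ v ∈ W, c ω v ∈ L v
  proper : ∀ ω, P ω ≠ 0 → ∀ u ∈ W, ∀ v ∈ W, G.Adj u v → c ω u ≠ c ω v
  unif : ∀ v ∈ W, ∀ x ∈ L v, ∑ ω, (if c ω v = x then P ω else 0) = 1 / k
  inv : ∀ U ⊆ W, ∀ T : Finset C, ∀ ν : ℝ, 0 ≤ ν → ν ≤ 1 / w → ∀ j : ℕ,
    ∑ ω, P ω * J w ν j (Z (c ω) U T) ≤ J w ν (j + U.card) T.card + ν * U.card * T.card / k

attribute [instance] State.fin

variable {G : SimpleGraph V} {L : V → Finset C} {k w : ℕ}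

/-- the law of the colour of `v` meets `T` with probability at most `|T| / k` -/
lemma State.prob_mem_le {W : Finset V} (s : State G L k w W) {v : V} (hv : v ∈ W) (T : Finset C) :
    ∑ ω, (if s.c ω v ∈ T then s.P ω else 0) ≤ (T.card : ℝ) / k := by
  have h1 : ∀ ω, (if s.c ω v ∈ T then s.P ω else 0) =
      ∑ x ∈ T.filter (· ∈ L v), (if s.c ω v = x then s.P ω else 0) := by
    intro ω
    by_cases hP : s.P ω = 0
    · simp [hP]
    · rw [Finset.sum_ite_eq (T.filter (· ∈ L v)) (s.c ω v) (fun _ => s.P ω)]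
      have := s.mem ω hP v hv
      simp [this]
  rw [Finset.sum_congr rfl fun ω _ => h1 ω, Finset.sum_comm]
  have h2 : ∀ x ∈ T.filter (· ∈ L v), ∑ ω, (if s.c ω v = x then s.P ω else 0) = 1 / (k : ℝ) := by
    intro x hx
    exact s.unif v hv x (Finset.mem_filter.mp hx).2
  rw [Finset.sum_congr rfl h2, Finset.sum_const, nsmul_eq_mul]
  have h3 : ((T.filter (· ∈ L v)).card : ℝ) ≤ T.card := by exact_mod_cast Finset.card_filter_le _ _
  have h4 : (0 : ℝ) ≤ 1 / k := by positivity
  calc ((T.filter (· ∈ L v)).card : ℝ) * (1 / k) ≤ T.card * (1 / k) := by gcongr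
    _ = T.card / k := by ring

/-- expected number of unused colours -/
lemma State.le_expect {W : Finset V} (s : State G L k w W) {U : Finset V} (hU : U ⊆ W)
    (T : Finset C) :
    (T.card : ℝ) * (1 - U.card / k) ≤ ∑ ω, s.P ω * (Z (s.c ω) U T : ℝ) := by
  have h1 : ∀ ω, s.P ω * ((T.card : ℝ) - ∑ u ∈ U, (if s.c ω u ∈ T then (1 : ℝ) else 0)) ≤
      s.P ω * (Z (s.c ω) U T : ℝ) := by
    intro ω
    refine mul_le_mul_of_nonneg_left ?_ (s.nonneg ω)
    have e1 : (T ∩ U.image (s.c ω)).card ≤ (U.filter fun u => s.c ω u ∈ T).card := by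
      have : T ∩ U.image (s.c ω) ⊆ (U.filter fun u => s.c ω u ∈ T).image (s.c ω) := by
        intro x hx
        obtain ⟨hx1, hx2⟩ := Finset.mem_inter.mp hx
        obtain ⟨u, hu, rfl⟩ := Finset.mem_image.mp hx2
        exact Finset.mem_image.mpr ⟨u, Finset.mem_filter.mpr ⟨hu, hx1⟩, rfl⟩
      exact (Finset.card_le_card this).trans Finset.card_image_le
    have e2 : Z (s.c ω) U T + (T ∩ U.image (s.c ω)).card = T.card := by
      unfold Z
      exact Finset.card_sdiff_add_card_inter T _
    have e3 : (∑ u ∈ U, (if s.c ω u ∈ T then (1 : ℝ) else 0)) =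
        ((U.filter fun u => s.c ω u ∈ T).card : ℝ) := by
      rw [Finset.sum_ite]; simp
    rw [e3]
    have e4 : ((T ∩ U.image (s.c ω)).card : ℝ) ≤ ((U.filter fun u => s.c ω u ∈ T).card : ℝ) := by
      exact_mod_cast e1
    have e5 : (Z (s.c ω) U T : ℝ) + ((T ∩ U.image (s.c ω)).card : ℝ) = T.card := by
      exact_mod_cast e2
    linarith
  refine le_trans ?_ (Finset.sum_le_sum fun ω _ => h1 ω)
  have h2 : ∑ ω, s.P ω * ((T.card : ℝ) - ∑ u ∈ U, (if s.c ω u ∈ T then (1 : ℝ) else 0)) =
      T.card - ∑ u ∈ U, ∑ ω, (if s.c ω u ∈ T then s.P ω else 0) := by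
    have : ∀ ω, s.P ω * ((T.card : ℝ) - ∑ u ∈ U, (if s.c ω u ∈ T then (1 : ℝ) else 0)) =
        s.P ω * T.card - ∑ u ∈ U, (if s.c ω u ∈ T then s.P ω else 0) := by
      intro ω
      rw [mul_sub, Finset.mul_sum]
      congr 1
      refine Finset.sum_congr rfl fun u _ => ?_
      split_ifs <;> simp
    rw [Finset.sum_congr rfl fun ω _ => this ω, Finset.sum_sub_distrib, ← Finset.sum_mul,
      s.sum_one, one_mul, Finset.sum_comm]
  rw [h2]
  have h3 : ∑ u ∈ U, ∑ ω, (if s.c ω u ∈ T then s.P ω else 0) ≤ ∑ _u ∈ U, (T.card : ℝ) / k :=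
    Finset.sum_le_sum fun u hu => s.prob_mem_le (hU hu) T
  rw [Finset.sum_const, nsmul_eq_mul] at h3
  have h4 : (T.card : ℝ) * (1 - U.card / k) = T.card - U.card * (T.card / k) := by ring
  rw [h4]
  linarith

/-- the state for no vertex -/
noncomputable def State.empty (hk : 0 < k) (hL : ∀ v, (L v).card = k) : State G L k w ∅ where
  Ω := Unit
  fin := inferInstance
  P := fun _ => 1
  c := fun _ v => ((Finset.card_pos.mp (by rw [hL v]; exact hk) : (L v).Nonempty)).choose
  nonneg := fun _ => zero_le_one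
  sum_one := by simp
  mem := by simp
  proper := by simp
  unif := by simp
  inv := by
    intro U hU T ν _ _ j
    have : U = ∅ := Finset.subset_empty.mp hU
    subst this
    simp [Z]

/-- the numerical condition -/
def Cond (d k w : ℕ) : Prop :=
  ∀ t : ℕ, k - d < t → t ≤ k →
    (1 - (1 - 1 / (w : ℝ)) ^ (d - (t - w))) * ((d : ℝ) * t - ((k : ℝ) - t) * w) ≤
      ((k : ℝ) - t) * ((t : ℝ) - w)

/-- Hall's condition for the next vertex -/
lemma State.hall {W : Finset V} (s : State G L k w W) {d : ℕ} (hd : 1 ≤ d) (hw : 1 ≤ w)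
    (hdk : d + w ≤ k) (hc : Cond d k w) {U : Finset V} (hU : U ⊆ W) (hUd : U.card ≤ d)
    (T : Finset C) (hT : T.card ≤ k) :
    (T.card : ℝ) / k ≤ ∑ ω, s.P ω * min 1 (1 / (w : ℝ) * (Z (s.c ω) U T : ℝ)) := by
  have hw0 : (0 : ℝ) < w := by exact_mod_cast hw
  have hk0 : (0 : ℝ) < k := by exact_mod_cast (by omega : 0 < k)
  have hd0 : (0 : ℝ) < d := by exact_mod_cast (by omega : 0 < d)
  have hdk' : (d : ℝ) + w ≤ k := by exact_mod_cast hdk
  have hTk : (T.card : ℝ) ≤ k := by exact_mod_cast hT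
  have hUd' : (U.card : ℝ) ≤ d := by exact_mod_cast hUd
  have hZT : ∀ ω, Z (s.c ω) U T ≤ T.card := fun ω => by
    unfold Z; exact Finset.card_le_card Finset.sdiff_subset
  rcases Nat.lt_or_ge (k - d) T.card with ht | ht
  · -- large T
    set t : ℝ := (T.card : ℝ) with htdef
    have hwt : w < T.card := by omega
    have hwt' : (w : ℝ) < t := by rw [htdef]; exact_mod_cast hwt
    have ht0 : 0 < t := by linarith
    set ν : ℝ := (k - t) / (d * t) with hν
    have hν0 : 0 ≤ ν := div_nonneg (by linarith) (by positivity)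
    have hkt : (k : ℝ) - t ≤ d := by
      have : k ≤ T.card + d := by omega
      have : (k : ℝ) ≤ t + d := by rw [htdef]; exact_mod_cast this
      linarith
    have hν1 : ν ≤ 1 / w := by
      rw [hν, div_le_div_iff₀ (by positivity) hw0]
      nlinarith
    have h1 := s.inv U hU T ν hν0 hν1 0
    have h2 : ∀ ω, s.P ω * J w ν 0 (Z (s.c ω) U T) =
        s.P ω - s.P ω * min 1 (1 / (w : ℝ) * (Z (s.c ω) U T : ℝ)) := by
      intro ω
      rw [J_zero hw hν0 hν1]; ring
    rw [Finset.sum_congr rfl fun ω _ => h2 ω, Finset.sum_sub_distrib, s.sum_one] at h1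
    have h3 : J w ν (0 + U.card) T.card ≤ 0 := by
      refine (J_mono hw hν0 hν1 hwt.le (by omega : 0 + U.card ≤ d)).trans ?_
      rw [J_of_ge hw hν1 hwt.le]
      refine max_le le_rfl ?_
      have h4 := hc T.card ht hT
      rw [← htdef] at h4
      rw [← htdef]
      have e1 : 1 - ν * w = ((d : ℝ) * t - (k - t) * w) / (d * t) := by
        rw [hν]; field_simp
      have e2 : ν * (t - w) = ((k - t) * (t - w)) / (d * t) := by
        rw [hν]; ring
      rw [e1, e2, ← mul_div_assoc, ← sub_div]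
      exact div_nonpos_of_nonpos_of_nonneg (by linarith) (by positivity)
    have h5 : ν * U.card * t / k ≤ 1 - t / k := by
      have e : ν * U.card * t / k = (k - t) / k * (U.card / d) := by
        rw [hν]; field_simp
      have e' : (1 : ℝ) - t / k = (k - t) / k := by field_simp
      rw [e, e']
      have : (U.card : ℝ) / d ≤ 1 := by rw [div_le_one hd0]; exact hUd'
      have h6 : 0 ≤ ((k : ℝ) - t) / k := div_nonneg (by linarith) hk0.le
      calc ((k : ℝ) - t) / k * (U.card / d) ≤ (k - t) / k * 1 := by gcongr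
        _ = (k - t) / k := mul_one _
    linarith
  · -- small T
    rcases Nat.eq_zero_or_pos T.card with h0 | h0
    · rw [h0]
      simp only [Nat.cast_zero, zero_div]
      refine Finset.sum_nonneg fun ω _ => mul_nonneg (s.nonneg ω) ?_
      exact le_min zero_le_one (by positivity)
    set t : ℝ := (T.card : ℝ) with htdef
    have ht0 : 0 < t := by rw [htdef]; exact_mod_cast h0
    set m : ℝ := max (w : ℝ) t with hm
    have hmpos : 0 < m := lt_of_lt_of_le hw0 (le_max_left _ _)
    have hmk : m ≤ k - d := by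
      refine max_le (by linarith) ?_
      have : T.card + d ≤ k := by omega
      have : t + d ≤ (k : ℝ) := by rw [htdef]; exact_mod_cast this
      linarith
    have h1 : ∀ ω, s.P ω * ((Z (s.c ω) U T : ℝ) / m) ≤
        s.P ω * min 1 (1 / (w : ℝ) * (Z (s.c ω) U T : ℝ)) := by
      intro ω
      refine mul_le_mul_of_nonneg_left ?_ (s.nonneg ω)
      have hz : (Z (s.c ω) U T : ℝ) ≤ t := by rw [htdef]; exact_mod_cast hZT ω
      refine le_min ?_ ?_
      · rw [div_le_one hmpos]; exact hz.trans (le_max_right _ _)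
      · rw [div_eq_mul_one_div, mul_comm]
        refine mul_le_mul_of_nonneg_right ?_ (Nat.cast_nonneg _)
        exact one_div_le_one_div_of_le hw0 (le_max_left _ _)
    refine le_trans ?_ (Finset.sum_le_sum fun ω _ => h1 ω)
    have h2 : ∑ ω, s.P ω * ((Z (s.c ω) U T : ℝ) / m) =
        (∑ ω, s.P ω * (Z (s.c ω) U T : ℝ)) / m := by
      rw [Finset.sum_div]
      refine Finset.sum_congr rfl fun ω _ => by ring
    rw [h2, le_div_iff₀ hmpos]
    have h3 := s.le_expect hU T
    rw [← htdef] at h3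
    refine le_trans ?_ h3
    have h4 : t / k * m ≤ t / k * (k - d) := by gcongr
    have h5 : t / k * (k - d) ≤ t * (1 - U.card / k) := by
      have : t * (1 - U.card / k) = t / k * (k - U.card) := by field_simp
      rw [this]
      gcongr
    linarith

end Pool.Agent.Helper721_F
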